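import Pool.Agent.Y853.SP.Fin
import Pool.Agent.Y853.Blocks

set_option autoImplicit false

/-!
# The power saving for the Mertens function and the zeros of `P(D) ζ - A`
-/

namespace Pool.Agent.Y853.SP

open Complex Filter Topology Set Polynomial MeasureTheory
open Pool.Agent.Y853 (Me QQ1 QQ1_norm QQ1_of saving_of_free free_of_small)

theorem free_of_QQ1 (h : QQ1) : ∃ θ : ℝ, 1 / 2 ≤ θ ∧ θ < 1 ∧ ∀ s : ℂ, θ < s.re → riemannZeta s ≠ 0 := by
  obtain ⟨θ, C, h1, h2, h3, h4⟩ := QQ1_norm h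
  refine ⟨θ, h1.le, h2, free_of_small (p := 1) (c := 1) (K := C * 2 ^ θ) h1.le le_rfl one_pos ?_⟩
  refine Eventually.frequently ?_
  filter_upwards [eventually_ge_atTop 1] with X hX
  have hX0 : 0 < X := by linarith
  have hb : ∀ y ∈ Set.uIoc (1 * X) (1 * X + 1 * (1 * X)), ‖|Me y|‖ ≤ C * (2 * X) ^ θ := by
    intro y hy
    rw [Set.uIoc_of_le (by linarith)] at hy
    have hy1 : 1 ≤ y := by linarith [hy.1]
    have hy2 : y ≤ 2 * X := by linarith [hy.2]
    rw [Real.norm_eq_abs, abs_abs]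
    exact (h4 y hy1).trans (by gcongr)
  have h5 := intervalIntegral.norm_integral_le_of_norm_le_const hb
  have h6 := (le_abs_self _).trans h5
  refine h6.trans (le_of_eq ?_)
  have e1 : |1 * X + 1 * (1 * X) - 1 * X| = X := by
    rw [show 1 * X + 1 * (1 * X) - 1 * X = X by ring, abs_of_pos hX0]
  rw [e1, Real.mul_rpow (by norm_num) hX0.le, Real.rpow_add hX0, Real.rpow_one]
  ring

theorem iff_M {P : ℂ[X]} {A : ℂ → ℂ} (hP : P ≠ 0) (hA : Tame A) :
    QQ1 ↔ ∃ δ : ℝ, 0 < δ ∧ {s : ℂ | FF P A s = 0 ∧ -1 < s.re ∧ s.re < δ}.Finite := by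
  constructor
  · intro h
    obtain ⟨θ, h1, h2, h3⟩ := free_of_QQ1 h
    refine ⟨(1 - θ) / 2, by linarith, ?_⟩
    have h4 := (fin_iff hP hA h1 h2).2 (fun ε hε => by
      have : {s : ℂ | riemannZeta s = 0 ∧ θ + ε < s.re} = ∅ := by
        ext s
        simp only [mem_setOf_eq, mem_empty_iff_false, iff_false, not_and]
        intro h5 h6
        exact h3 s (by linarith) h5
      rw [this]
      exact Set.finite_empty) ((1 - θ) / 2) (by linarith)
    have e : 1 - θ - (1 - θ) / 2 = (1 - θ) / 2 := by ring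
    rwa [e] at h4
  · rintro ⟨δ, hδ, h⟩
    obtain ⟨δ1, h1, h2, h3⟩ : ∃ δ1 : ℝ, 0 < δ1 ∧ δ1 ≤ 1 / 2 ∧ δ1 ≤ δ :=
      ⟨min (1 / 2) δ, by positivity, min_le_left _ _, min_le_right _ _⟩
    have h4 := (fin_iff hP hA (θ := 1 - δ1) (by linarith) (by linarith)).1 (fun ε hε =>
      h.subset fun s hs => ⟨hs.1, hs.2.1, by have := hs.2.2; linarith⟩) (δ1 / 2) (by linarith)
    -- finitely many zeros, all with real part less than `1`
    obtain ⟨θ, h5, h6, h7⟩ : ∃ θ : ℝ, 1 / 2 ≤ θ ∧ θ < 1 ∧ ∀ s : ℂ, θ < s.re → riemannZeta s ≠ 0 := by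
      obtain ⟨S, hS⟩ := h4.exists_finset_coe
      have hne : (insert (1 - δ1 / 2) (S.image fun s : ℂ => s.re)).Nonempty :=
        Finset.insert_nonempty _ _
      obtain ⟨m, hm⟩ : ∃ m : ℝ, m = (insert (1 - δ1 / 2) (S.image fun s : ℂ => s.re)).max' hne :=
        ⟨_, rfl⟩
      have hm1 : 1 - δ1 / 2 ≤ m := by
        rw [hm]; exact Finset.le_max' _ _ (Finset.mem_insert_self _ _)
      have hm2 : m < 1 := by
        rw [hm, Finset.max'_lt_iff]
        intro y hy
        rw [Finset.mem_insert, Finset.mem_image] at hy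
        rcases hy with rfl | ⟨s, hs, rfl⟩
        · linarith
        · by_contra hcon
          have hs' : s ∈ (S : Set ℂ) := hs
          rw [hS] at hs'
          exact riemannZeta_ne_zero_of_one_le_re (not_lt.1 hcon) hs'.1
      refine ⟨m, by linarith, hm2, fun s hs h0 => ?_⟩
      have hs' : s ∈ (S : Set ℂ) := by
        rw [hS]
        exact ⟨h0, by linarith⟩
      have : s.re ≤ m := by
        rw [hm]
        exact Finset.le_max' _ _ (Finset.mem_insert_of_mem (Finset.mem_image_of_mem _ hs'))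
      linarith
    exact QQ1_of h6 (saving_of_free h5 h7)

end Pool.Agent.Y853.SP
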